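import Mathlib

/-!
A median graph with a diametral pair that does not extend to a triametral triple.

The graph is the 3-cube with one pendant vertex attached to each of the four cube vertices
000, 100, 010, 001.  It has 12 vertices, diameter 4 and triameter 12; the pendant vertex at 000
and the cube vertex 111 form a diametral pair `x, y` and `d(x,y,z) ≤ 10` for every vertex `z`.
-/

namespace Pool.Agent.Results.MP_371ff7_co.NonExtendingPair

/-- The interval `[u,v] = {x : d(u,x) + d(x,v) = d(u,v)}` of a graph. -/
def interval {V : Type} (G : SimpleGraph V) (u v : V) : Set V :=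
  {x | G.dist u x + G.dist x v = G.dist u v}

/-- A connected graph is a median graph if for all vertices `u, v, w` the set
`[u,v] ∩ [u,w] ∩ [v,w]` has exactly one element. -/
def IsMedianGraph {V : Type} (G : SimpleGraph V) : Prop :=
  G.Connected ∧
    ∀ u v w : V, (interval G u v ∩ interval G u w ∩ interval G v w).ncard = 1

/-- `d(u,v,w) = d(u,v) + d(u,w) + d(v,w)`. -/
noncomputable def tripleDist {V : Type} (G : SimpleGraph V) (u v w : V) : ℕ :=
  G.dist u v + G.dist u w + G.dist v w

/-- The triameter of a finite graph: the maximum of `d(u,v,w)` over all triples. -/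
noncomputable def triameter {V : Type} [Fintype V] (G : SimpleGraph V) : ℕ :=
  Finset.sup Finset.univ fun t : V × V × V => tripleDist G t.1 t.2.1 t.2.2

/-- Codes of the twelve vertices as subsets of a 7-element set (written in binary): `0..7` are the
vertices of the 3-cube, `8, 9, 10, 11` are pendant vertices attached to `0, 1, 2, 4`. -/
def code : Fin 12 → ℕ := ![0, 1, 2, 3, 4, 5, 6, 7, 8, 17, 34, 68]

/-- Hamming distance of the codes. -/
def hd (u v : Fin 12) : ℕ :=
  ((Finset.range 7).filter fun i => (code u).testBit i ≠ (code v).testBit i).card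

/-- The graph: two vertices are adjacent if their codes differ in exactly one bit. -/
def H : SimpleGraph (Fin 12) where
  Adj u v := hd u v = 1
  symm := ⟨by decide +kernel⟩
  loopless := ⟨by decide +kernel⟩

instance : DecidableRel H.Adj := fun u v => inferInstanceAs (Decidable (hd u v = 1))

/-- A criterion for a function to be the graph distance. -/
lemma dist_eq_of {V : Type} (G : SimpleGraph V) (f : V → V → ℕ)
    (h0 : ∀ u, f u u = 0)
    (h1 : ∀ u v w, G.Adj v w → f u w ≤ f u v + 1)
    (h2 : ∀ u v, u ≠ v → ∃ w, G.Adj v w ∧ f u w + 1 = f u v) (u v : V) :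
    G.Reachable u v ∧ G.dist u v = f u v := by
  have key : ∀ n : ℕ, ∀ v, f u v = n → ∃ p : G.Walk v u, p.length = n := by
    intro n
    induction n with
    | zero =>
      intro v hv
      by_cases huv : u = v
      · subst huv
        exact ⟨SimpleGraph.Walk.nil, rfl⟩
      · obtain ⟨w, _, hw⟩ := h2 u v huv
        omega
    | succ n ih =>
      intro v hv
      by_cases huv : u = v
      · subst huv
        rw [h0] at hv
        omega
      · obtain ⟨w, hvw, hw⟩ := h2 u v huv
        obtain ⟨p, hp⟩ := ih w (by omega)
        exact ⟨SimpleGraph.Walk.cons hvw p, by simp [hp]⟩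
  have upper : ∀ a b : V, ∀ p : G.Walk a b, f u b ≤ f u a + p.length := by
    intro a b p
    induction p with
    | nil => simp
    | cons h p ih =>
      have := h1 u _ _ h
      rw [SimpleGraph.Walk.length_cons]
      omega
  obtain ⟨p, hp⟩ := key _ v rfl
  have hr : G.Reachable u v := ⟨p.reverse⟩
  refine ⟨hr, le_antisymm ?_ ?_⟩
  · have := SimpleGraph.dist_le p.reverse
    rw [SimpleGraph.Walk.length_reverse, hp] at this
    exact this
  · obtain ⟨q, hq⟩ := hr.exists_walk_length_eq_dist
    have := upper u v q
    rw [h0, hq] at this
    omega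

lemma H_dist (u v : Fin 12) : H.Reachable u v ∧ H.dist u v = hd u v :=
  dist_eq_of H hd (by decide +kernel) (by decide +kernel) (by decide +kernel) u v

lemma H_connected : H.Connected :=
  { preconnected := fun u v => (H_dist u v).1
    nonempty := ⟨0⟩ }

/-- Computable version of the median condition. -/
lemma median_dec : ∀ u v w : Fin 12,
    (Finset.univ.filter fun x : Fin 12 => hd u x + hd x v = hd u v ∧
      hd u x + hd x w = hd u w ∧ hd v x + hd x w = hd v w).card = 1 := by
  decide +kernel

lemma H_median : IsMedianGraph H := by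
  refine ⟨H_connected, fun u v w => ?_⟩
  rw [← median_dec u v w, ← Set.ncard_coe_finset]
  congr 1
  ext x
  simp [interval, (H_dist _ _).2, and_assoc]

lemma H_diam : H.diam = 4 := by
  have hne : H.ediam ≠ ⊤ := SimpleGraph.connected_iff_ediam_ne_top.1 H_connected
  apply le_antisymm
  · obtain ⟨u, v, huv⟩ := SimpleGraph.exists_dist_eq_diam (G := H)
    rw [← huv, (H_dist u v).2]
    clear huv
    revert u v
    decide +kernel
  · have := SimpleGraph.dist_le_diam hne (u := (8 : Fin 12)) (v := 7)
    rw [(H_dist _ _).2] at this
    have h4 : hd 8 7 = 4 := by decide +kernel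
    omega

/-- There is a finite median graph with a diametral pair `x, y` such that
`d(x,y,z) < tr(G)` for every vertex `z`. -/
theorem result :
    ∃ (V : Type) (_ : Fintype V) (G : SimpleGraph V), IsMedianGraph G ∧
      ∃ x y : V, G.dist x y = G.diam ∧ ∀ z : V, tripleDist G x y z < triameter G := by
  refine ⟨Fin 12, inferInstance, H, H_median, 8, 7, ?_, fun z => ?_⟩
  · rw [H_diam, (H_dist _ _).2]
    decide +kernel
  · have h1 : tripleDist H 9 10 11 ≤ triameter H :=
      Finset.le_sup (f := fun t : Fin 12 × Fin 12 × Fin 12 => tripleDist H t.1 t.2.1 t.2.2)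
        (Finset.mem_univ ((9 : Fin 12), (10 : Fin 12), (11 : Fin 12)))
    refine lt_of_lt_of_le ?_ h1
    simp only [tripleDist, (H_dist _ _).2]
    revert z
    decide +kernel

end Pool.Agent.Results.MP_371ff7_co.NonExtendingPair
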